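import Pool.Agent.H88.WR.Targets

/-!
# JSQ: the choice of the blocks
-/

set_option autoImplicit false

namespace Pool.Agent.H73.WR

open Filter Topology Set Pool.Agent.H85.WMP Pool.Agent.H88.WR

variable (𝕜 : Type) [RCLike 𝕜]

section

variable {𝕜} {E : Type} [NormedAddCommGroup E] [NormedSpace 𝕜 E]

/-- The norm from real parts. -/
lemma jsq_norm (φ : StrongDual 𝕜 E) (c : ℝ) (h : c < ‖φ‖) :
    ∃ x : E, ‖x‖ ≤ 1 ∧ c < RCLike.re (φ x) := by
  obtain ⟨x, hx, hc⟩ := ContinuousLinearMap.exists_lt_apply_of_lt_opNorm φ h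
  by_cases h0 : φ x = 0
  · refine ⟨x, hx.le, ?_⟩
    rw [h0, norm_zero] at hc
    rw [h0, map_zero]
    exact hc
  · have hn : ‖φ x‖ ≠ 0 := norm_ne_zero_iff.2 h0
    have hn' : ((‖φ x‖ : ℝ) : 𝕜) ≠ 0 := by
      exact_mod_cast hn
    refine ⟨((starRingEnd 𝕜) (φ x) / ((‖φ x‖ : ℝ) : 𝕜)) • x, ?_, ?_⟩
    · rw [norm_smul, norm_div, RCLike.norm_conj, RCLike.norm_ofReal, abs_norm, div_self hn,
        one_mul]
      exact hx.le
    · rw [map_smul, smul_eq_mul, div_mul_eq_mul_div, RCLike.conj_mul, sq, mul_div_assoc,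
        div_self hn', mul_one, RCLike.ofReal_re]
      exact hc

lemma jsq_re_le (φ : StrongDual 𝕜 E) (x : E) (hx : ‖x‖ ≤ 1) : RCLike.re (φ x) ≤ ‖φ‖ :=
  (RCLike.re_le_norm _).trans ((φ.le_opNorm x).trans
    (mul_le_of_le_one_right (norm_nonneg _) hx))

/-- An upper limit is at most `c`. -/
lemma jsq_limsup (h : ℕ → StrongDual 𝕜 E) (hh : ∀ n, ‖h n‖ ≤ 1) (x : E) (c : ℝ)
    (hc : ∀ i : ℕ, RCLike.re (h i x) < c + 1 / ((i : ℝ) + 1)) :
    limsup (fun n => RCLike.re (h n x)) atTop ≤ c := by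
  have hcob : IsCoboundedUnder (· ≤ ·) atTop (fun n => RCLike.re (h n x)) := by
    refine IsBoundedUnder.isCoboundedUnder_le ?_
    refine ⟨-‖x‖, ?_⟩
    refine eventually_map.2 (Eventually.of_forall fun n => ?_)
    have h1 : ‖h n x‖ ≤ ‖x‖ :=
      ((h n).le_opNorm x).trans (mul_le_of_le_one_left (norm_nonneg _) (hh n))
    have h2 := (abs_le.1 ((RCLike.abs_re_le_norm (h n x)).trans h1)).1
    exact h2
  refine le_of_forall_pos_le_add fun e he => ?_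
  refine limsup_le_of_le hcob ?_
  obtain ⟨N, hN⟩ := exists_nat_one_div_lt he
  filter_upwards [eventually_ge_atTop N] with i hi
  refine (hc i).le.trans ?_
  have h3 : 1 / ((i : ℝ) + 1) ≤ 1 / ((N : ℝ) + 1) := by
    refine one_div_le_one_div_of_le (by positivity) ?_
    have : (N : ℝ) ≤ i := by exact_mod_cast hi
    linarith
  linarith

/-- The competitors. -/
def Cmp (𝕜 : Type) [RCLike 𝕜] (E : Type) [NormedAddCommGroup E] [NormedSpace 𝕜 E]
    (n : ℕ) (b : ℝ) (u : StrongDual 𝕜 E) (h : ℕ → StrongDual 𝕜 E) : Set ℝ :=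
  {r | ∃ y ∈ convexHull ℝ (h '' {k | n ≤ k}), ∃ h', Blk 𝕜 E h h' ∧
    ∀ w ∈ Lm 𝕜 E h', ‖u + b • y - w‖ ≤ r}

/-- One step. -/
lemma jsq_step (hJLM : T_JLM 𝕜) (h : ℕ → StrongDual 𝕜 E) (hh : ∀ n, ‖h n‖ ≤ 1) (n : ℕ)
    (u : StrongDual 𝕜 E) (b ε : ℝ) (hne : (Cmp 𝕜 E n b u h).Nonempty)
    (hbd : BddBelow (Cmp 𝕜 E n b u h)) (ha : 0 < sInf (Cmp 𝕜 E n b u h)) (hε : 0 < ε) :
    ∃ y ∈ convexHull ℝ (h '' {k | n ≤ k}), ∃ h', Blk 𝕜 E h h' ∧ ∀ w ∈ Lm 𝕜 E h',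
      ‖u + b • y - w‖ ≤ sInf (Cmp 𝕜 E n b u h) * (1 + ε) ∧
      sInf (Cmp 𝕜 E n b u h) * (1 - ε) ≤ ‖u + b • y - w‖ := by
  obtain ⟨l1, l2, l3, l4⟩ := hJLM E
  set a := sInf (Cmp 𝕜 E n b u h) with haA
  obtain ⟨r, ⟨y, hy, h', hb, hr⟩, hra⟩ := exists_lt_of_csInf_lt hne
    (show sInf (Cmp 𝕜 E n b u h) < a * (1 + ε) by nlinarith)
  have hh' : ∀ n, ‖h' n‖ ≤ 1 := (l4 h h' hh hb).1
  -- the lower bound is not an upper bound
  obtain ⟨w₀, hw₀, hw₀'⟩ : ∃ w ∈ Lm 𝕜 E h', a * (1 - ε) < ‖u + b • y - w‖ := by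
    by_contra hcon
    push Not at hcon
    have h1 : a * (1 - ε) ∈ Cmp 𝕜 E n b u h := ⟨y, hy, h', hb, hcon⟩
    have h2 := csInf_le hbd h1
    rw [← haA] at h2
    nlinarith
  obtain ⟨x, hx, hxa⟩ := jsq_norm _ _ hw₀'
  obtain ⟨φ, hφ, hφ'⟩ := extraction_forall_of_frequently
    (P := fun i k => RCLike.re (h' k x) < RCLike.re (w₀ x) + 1 / ((i : ℝ) + 1))
    (fun i => (l1 h' hh').2.2 w₀ hw₀ x _ (by positivity))
  have hb2 : Blk 𝕜 E h' (h' ∘ φ) := l3 h' φ hφ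
  have hls : limsup (fun n => RCLike.re ((h' ∘ φ) n x)) atTop ≤ RCLike.re (w₀ x) :=
    jsq_limsup (h' ∘ φ) (fun n => hh' _) x _ hφ'
  refine ⟨y, hy, h' ∘ φ, l2 h h' _ hb hb2, fun w hw => ⟨?_, ?_⟩⟩
  · exact (hr w ((l4 h' _ hh' hb2).2 hw)).trans hra.le
  · have h3 : RCLike.re (w x) ≤ RCLike.re (w₀ x) := (hw x).trans hls
    have h4 := jsq_re_le (u + b • y - w) x hx
    have h5 : RCLike.re ((u + b • y - w) x) =
        RCLike.re ((u + b • y) x) - RCLike.re (w x) := by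
      rw [sub_apply, map_sub]
    have h6 : RCLike.re ((u + b • y - w₀) x) =
        RCLike.re ((u + b • y) x) - RCLike.re (w₀ x) := by
      rw [sub_apply, map_sub]
    rw [h5] at h4
    rw [h6] at hxa
    linarith

/-- Blocks of blocks, for convex hulls of tails. -/
lemma jsq_tail (h g : ℕ → StrongDual 𝕜 E) (hb : Blk 𝕜 E h g) (n : ℕ) :
    convexHull ℝ (g '' {k | n ≤ k}) ⊆ convexHull ℝ (h '' {k | n ≤ k}) := by
  refine convexHull_min ?_ (convex_convexHull ℝ _)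
  rintro _ ⟨k, hk, rfl⟩
  refine convexHull_mono (image_mono fun l hl => ?_) (hb k)
  exact le_trans (show n ≤ k from hk) hl

lemma jsq_tail_mono (h : ℕ → StrongDual 𝕜 E) (n m : ℕ) (hnm : n ≤ m) :
    convexHull ℝ (h '' {k | m ≤ k}) ⊆ convexHull ℝ (h '' {k | n ≤ k}) :=
  convexHull_mono (image_mono fun _ hl => le_trans hnm hl)

lemma jsq_range (h : ℕ → StrongDual 𝕜 E) (n : ℕ) :
    convexHull ℝ (h '' {k | n ≤ k}) ⊆ convexHull ℝ (range h) :=
  convexHull_mono (image_subset_range _ _)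

end

/-- The states of the induction. -/
structure JSt (E : Type) [NormedAddCommGroup E] [NormedSpace 𝕜 E] (B : ℕ → ℝ)
    (f : ℕ → StrongDual 𝕜 E) where
  n : ℕ
  u : StrongDual 𝕜 E
  h : ℕ → StrongDual 𝕜 E
  hb : Blk 𝕜 E f h
  hu : ∀ y ∈ convexHull ℝ (range f), u + B n • y ∈ convexHull ℝ (range f)

/-- JSQ: the choice of the blocks. -/
theorem pf_JSQ (hJLM : T_JLM 𝕜) : T_JSQ 𝕜 := by
  intro E _ _ f θ B ε hf hθ hdist hB0 hB hε
  obtain ⟨l1, l2, l3, l4⟩ := hJLM E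
  have hself : ∀ h : ℕ → StrongDual 𝕜 E, Blk 𝕜 E h h := fun h k =>
    subset_convexHull ℝ _ ⟨k, le_refl k, rfl⟩
  have hball : ∀ v ∈ convexHull ℝ (range f), ‖v‖ ≤ 1 := by
    intro v hv
    have h1 : convexHull ℝ (range f) ⊆ Metric.closedBall (0 : StrongDual 𝕜 E) 1 := by
      refine convexHull_min ?_ (convex_closedBall _ _)
      rintro _ ⟨k, rfl⟩
      rw [mem_closedBall_zero_iff]
      exact hf k
    have h2 := h1 hv
    rwa [mem_closedBall_zero_iff] at h2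
  -- the tails of block sequences
  have hconv : ∀ p : JSt 𝕜 E B f, ∀ y ∈ convexHull ℝ (p.h '' {k | p.n ≤ k}),
      p.u + B p.n • y ∈ convexHull ℝ (range f) := by
    intro p y hy
    exact p.hu y (jsq_range f p.n (jsq_tail f p.h p.hb p.n hy))
  -- the infima
  have hlow : ∀ p : JSt 𝕜 E B f, ∀ r ∈ Cmp 𝕜 E p.n (B p.n) p.u p.h, θ ≤ r := by
    rintro p r ⟨y, hy, h', hb', hr⟩
    have hph : ∀ n, ‖p.h n‖ ≤ 1 := (l4 f p.h hf p.hb).1
    have hh' := (l4 p.h h' hph hb')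
    obtain ⟨w, hw⟩ := (l1 h' hh'.1).1
    refine (hdist _ (hconv p y hy) w ?_).trans (hr w hw)
    exact (l4 f p.h hf p.hb).2 (hh'.2 hw)
  have hbdd : ∀ p : JSt 𝕜 E B f, BddBelow (Cmp 𝕜 E p.n (B p.n) p.u p.h) := fun p =>
    ⟨θ, fun r hr => hlow p r hr⟩
  have htwo : ∀ p : JSt 𝕜 E B f, (2 : ℝ) ∈ Cmp 𝕜 E p.n (B p.n) p.u p.h := by
    intro p
    have hy : p.h p.n ∈ convexHull ℝ (p.h '' {k | p.n ≤ k}) :=
      subset_convexHull ℝ _ ⟨p.n, le_refl p.n, rfl⟩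
    refine ⟨p.h p.n, hy, p.h, hself p.h, fun w hw => ?_⟩
    have h1 := hball _ (hconv p _ hy)
    have h2 := (l1 p.h (l4 f p.h hf p.hb).1).2.1 w hw
    refine (norm_sub_le _ _).trans ?_
    linarith
  have hth : ∀ p : JSt 𝕜 E B f, θ ≤ sInf (Cmp 𝕜 E p.n (B p.n) p.u p.h) := fun p =>
    le_csInf ⟨2, htwo p⟩ (hlow p)
  let R : JSt 𝕜 E B f → JSt 𝕜 E B f → Prop := fun p q =>
    q.n = p.n + 1 ∧ Blk 𝕜 E p.h q.h ∧ ∃ y ∈ convexHull ℝ (p.h '' {k | p.n ≤ k}),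
      q.u = p.u + (B p.n - B (p.n + 1)) • y ∧ ∀ w ∈ Lm 𝕜 E q.h,
        ‖p.u + B p.n • y - w‖ ≤ sInf (Cmp 𝕜 E p.n (B p.n) p.u p.h) * (1 + ε p.n) ∧
        sInf (Cmp 𝕜 E p.n (B p.n) p.u p.h) * (1 - ε p.n) ≤ ‖p.u + B p.n • y - w‖
  -- convex combinations
  have hcomb : ∀ (n : ℕ) (S : Set (StrongDual 𝕜 E)), Convex ℝ S → ∀ y ∈ S, ∀ y' ∈ S,
      ∃ z ∈ S, B n • z = (B n - B (n + 1)) • y + B (n + 1) • y' := by
    intro n S hS y hy y' hy'
    have hBn := (hB n).1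
    have hBn' := (hB (n + 1)).1
    have hlt := (hB n).2
    refine ⟨((B n - B (n + 1)) / B n) • y + (B (n + 1) / B n) • y', hS hy hy'
      (div_nonneg (by linarith) hBn.le) (div_nonneg hBn'.le hBn.le) ?_, ?_⟩
    · rw [← add_div, sub_add_cancel, div_self hBn.ne']
    · rw [smul_add, smul_smul, smul_smul, mul_div_cancel₀ _ hBn.ne', mul_div_cancel₀ _ hBn.ne']
  have hstep : ∀ p : JSt 𝕜 E B f, ∃ q, R p q := by
    intro p
    obtain ⟨y, hy, h', hb', hw⟩ := jsq_step hJLM p.h (l4 f p.h hf p.hb).1 p.n p.u (B p.n)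
      (ε p.n) ⟨2, htwo p⟩ (hbdd p) (hθ.trans_le (hth p)) (hε p.n)
    refine ⟨⟨p.n + 1, p.u + (B p.n - B (p.n + 1)) • y, h', l2 f p.h h' p.hb hb', ?_⟩,
      rfl, hb', y, hy, rfl, hw⟩
    intro y' hy'
    obtain ⟨z, hz, hz'⟩ := hcomb p.n _ (convex_convexHull ℝ (range f)) y
      (jsq_range f p.n (jsq_tail f p.h p.hb p.n hy)) y' hy'
    rw [add_assoc, ← hz']
    exact p.hu z hz
  obtain ⟨s, hs0, hs⟩ : ∃ s : ℕ → JSt 𝕜 E B f, s 0 = ⟨0, 0, f, hself f, fun y hy => by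
      rw [zero_add, hB0, one_smul]; exact hy⟩ ∧ ∀ n, R (s n) (s (n + 1)) := by
    choose q hq using hstep
    exact ⟨fun n => Nat.rec ⟨0, 0, f, hself f, fun y hy => by
      rw [zero_add, hB0, one_smul]; exact hy⟩ (fun _ p => q p) n, rfl, fun n => hq _⟩
  have hsn : ∀ n, (s n).n = n := by
    intro n
    induction n with
    | zero => rw [hs0]
    | succ n ih => rw [(hs n).1, ih]
  choose g hg hgu hgw using fun n => (hs n).2.2
  have hblk : ∀ n m, n ≤ m → Blk 𝕜 E (s n).h (s m).h := by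
    intro n m hnm
    induction m, hnm using Nat.le_induction with
    | base => exact hself _
    | succ m _ ih => exact l2 _ _ _ ih (hs m).2.1
  have hgn : ∀ n, g n ∈ convexHull ℝ ((s n).h '' {k | n ≤ k}) := by
    intro n
    have h1 := hg n
    rwa [hsn n] at h1
  have hu : ∀ n, (s n).u = ∑ j ∈ Finset.range n, (B j - B (j + 1)) • g j := by
    intro n
    induction n with
    | zero => rw [hs0, Finset.sum_range_zero]
    | succ n ih => rw [hgu n, ih, Finset.sum_range_succ, hsn n]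
  refine ⟨g, fun n => sInf (Cmp 𝕜 E (s n).n (B (s n).n) (s n).u (s n).h), ?_, ?_, ?_, ?_, ?_⟩
  · intro n
    exact jsq_tail f (s n).h (s n).hb n (hgn n)
  · -- monotone
    refine monotone_nat_of_le_succ fun n => ?_
    refine csInf_le_csInf (hbdd (s n)) ⟨2, htwo (s (n + 1))⟩ ?_
    rintro r ⟨y, hy, h', hb', hr⟩
    obtain ⟨z, hz, hz'⟩ := hcomb (s n).n _
      (convex_convexHull ℝ ((s n).h '' {k | (s n).n ≤ k})) (g n) (hg n) y
      (jsq_tail_mono (s n).h (s n).n (s (n + 1)).n (by rw [(hs n).1]; exact Nat.le_succ _)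
        (jsq_tail (s n).h (s (n + 1)).h (hs n).2.1 _ hy))
    refine ⟨z, hz, h', l2 _ _ _ (hs n).2.1 hb', fun w hw => ?_⟩
    have h1 : (s n).u + B (s n).n • z = (s (n + 1)).u + B (s (n + 1)).n • y := by
      rw [hz', hgu n, (hs n).1, add_assoc]
    rw [h1]
    exact hr w hw
  · exact fun n => hth (s n)
  · exact fun n => csInf_le (hbdd (s n)) (htwo (s n))
  · intro w hw n
    -- `w` is a limit of `h^(n+1)`
    have hw' : w ∈ Lm 𝕜 E (s (n + 1)).h := by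
      classical
      let g' : ℕ → StrongDual 𝕜 E := fun k => if n + 1 ≤ k then g k else (s (n + 1)).h k
      have hg' : Blk 𝕜 E (s (n + 1)).h g' := by
        intro k
        by_cases hk : n + 1 ≤ k
        · have h1 : g' k = g k := if_pos hk
          rw [h1]
          exact jsq_tail _ _ (hblk (n + 1) k hk) k (hgn k)
        · have h1 : g' k = (s (n + 1)).h k := if_neg hk
          rw [h1]
          exact hself _ k
      refine (l4 _ g' (l4 f _ hf (s (n + 1)).hb).1 hg').2 ?_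
      intro x
      refine (hw x).trans (le_of_eq ?_)
      refine limsup_congr ?_
      filter_upwards [eventually_ge_atTop (n + 1)] with k hk
      have h1 : g' k = g k := if_pos hk
      rw [h1]
    have h2 := hgw n w hw'
    rw [hu n, hsn n] at h2
    beta_reduce
    rw [hu n, hsn n]
    exact h2

end Pool.Agent.H73.WR
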